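import Pool.Agent.Helper61.FN.Goals

/-!
# Project FN, packet FN-PLC: growth exponents and leading coefficients at a place of the solution set
-/

set_option autoImplicit false

namespace Pool.Agent.Helper61.FN

open Finset WithZero

/-- The derivative of a Laurent monomial. -/
theorem plc_D_mon {F K E : Type} [Field F] [Field K] [Algebra F K] (D : Derivation F K K)
    (x : E → K) (hx : ∀ e, x e ≠ 0) (m : E → ℤ) (s : Finset E) :
    D (∏ e ∈ s, x e ^ m e) = (∏ e ∈ s, x e ^ m e) * ∑ e ∈ s, (m e : K) * (D (x e) / x e) := by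
  classical
  induction s using Finset.induction_on with
  | empty => simp
  | insert a s ha ih =>
    rw [prod_insert ha, sum_insert ha, D.leibniz, ih, D.leibniz_zpow]
    have h1 : x a ^ m a = x a ^ (m a - 1) * x a := by
      rw [← zpow_add_one₀ (hx a), sub_add_cancel]
    have h2 := hx a
    simp only [smul_eq_mul, zsmul_eq_mul]
    rw [h1]
    field_simp
    ring

theorem goalPLC (hFLD : G_FLD) (hLOG : G_LOG) (hRES : G_RES) (hLED : G_LED) : G_PLC := by
  intro F E J _ _ _ _ m c d lam hlam hm hinf
  obtain ⟨K, _, _, x, hx, hadj, ⟨e₀, he₀⟩, hid⟩ := hFLD F E (Sols m c d lam) hinf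
    (fun z hz e ↦ hz.1 e)
  obtain ⟨v, D, hL⟩ := hLOG F K E x e₀ hadj he₀
  obtain ⟨k, _, _, u, ξ, hξ, hu, hled⟩ := hLED F E K v x hL.triv hL.uni hx
  have hW : ∀ w : E → F, ∑ j, algebraMap F K (c j * pr (m j) w) * mon x (m j) =
      algebraMap F K (-lam * ∑ e, d e * w e) := by
    intro w
    refine hid J (fun j ↦ c j * pr (m j) w) m _ fun z hz ↦ ?_
    have h1 : ∑ e, (∑ j, c j * (m j e : F) * mon z (m j)) * w e = ∑ e, -lam * d e * w e :=
      sum_congr rfl fun e _ ↦ by rw [hz.2 e]
    have h2 : ∑ j, c j * pr (m j) w * mon z (m j) =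
        ∑ e, (∑ j, c j * (m j e : F) * mon z (m j)) * w e := by
      simp only [sum_mul, pr, mul_sum]
      rw [sum_comm]
      exact sum_congr rfl fun e _ ↦ sum_congr rfl fun j _ ↦ by ring
    rw [h2, h1, mul_sum]
    exact sum_congr rfl fun e _ ↦ by ring
  have hE : ∀ e, ∑ j, algebraMap F K (c j) * (m j e : K) * mon x (m j) =
      algebraMap F K (-lam * d e) := by
    intro e
    have h := hid J (fun j ↦ c j * (m j e : F)) m (-lam * d e) fun z hz ↦ hz.2 e
    simpa only [map_mul, map_intCast] using h
  have hlt : u e₀ < 0 := by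
    have h1 := hL.vt
    rw [hu e₀] at h1
    rw [← exp_zero] at h1
    exact exp_lt_exp.1 h1
  refine ⟨k, inferInstance, inferInstance, u, ξ, hξ, ⟨e₀, hlt.ne⟩, ?_, ?_⟩
  · -- the sum of the growth exponents
    have hc : ∑ j, algebraMap F K (c j) * mon x (m j) =
        algebraMap F K (lam * ∑ e, d e) := by
      have h := hW (fun _ ↦ 1)
      have h1 : ∀ j, pr (m j) (fun _ ↦ (1 : F)) = -1 := by
        intro j
        have := hm j
        simp only [pr, mul_one]
        rw [← Int.cast_sum, this, Int.cast_neg, Int.cast_one]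
      simp only [h1, mul_one, mul_neg, map_neg, neg_mul, sum_neg_distrib] at h
      rw [neg_inj] at h
      exact h
    have hD : ∑ j, algebraMap F K (c j) * (mon x (m j) *
        ∑ e, (m j e : K) * (D (x e) / x e)) = 0 := by
      have h := congrArg D hc
      rw [D.map_algebraMap, map_sum] at h
      refine (sum_congr rfl fun j _ ↦ ?_).trans h
      have h1 := plc_D_mon D x hx (m j) univ
      rw [D.leibniz, D.map_algebraMap, smul_zero, add_zero, smul_eq_mul]
      unfold mon
      rw [h1]
    have hq : ∑ e, algebraMap F K (d e) * (D (x e) / x e) = 0 := by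
      have h1 : ∑ j, algebraMap F K (c j) * (mon x (m j) *
          ∑ e, (m j e : K) * (D (x e) / x e)) =
          ∑ e, (∑ j, algebraMap F K (c j) * (m j e : K) * mon x (m j)) * (D (x e) / x e) := by
        simp only [sum_mul, mul_sum]
        rw [sum_comm]
        exact sum_congr rfl fun e _ ↦ sum_congr rfl fun j _ ↦ by ring
      rw [h1] at hD
      simp only [hE, map_mul, map_neg] at hD
      have h2 : ∑ e, -algebraMap F K lam * algebraMap F K (d e) * (D (x e) / x e) =
          -algebraMap F K lam * ∑ e, algebraMap F K (d e) * (D (x e) / x e) := by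
        rw [mul_sum]
        exact sum_congr rfl fun e _ ↦ by ring
      rw [h2] at hD
      rcases mul_eq_zero.1 hD with h3 | h3
      · exact absurd h3 (neg_ne_zero.2 ((map_ne_zero _).2 hlam))
      · exact h3
    have hr : ∀ e, v (((-u e₀ : ℤ) : K) * (D (x e) / x e) + (u e : K)) < 1 := by
      intro e
      refine hRES F K (x e₀) v D (hx e₀) hL (x e) (u e) (-u e₀) (hx e) (hu e) ?_ (by omega)
      rw [neg_neg]
      exact hu e₀
    have hs : algebraMap F K (∑ e, d e * (u e : F)) =
        ∑ e, algebraMap F K (d e) * (((-u e₀ : ℤ) : K) * (D (x e) / x e) + (u e : K)) := by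
      have h1 : ∑ e, algebraMap F K (d e) *
          (((-u e₀ : ℤ) : K) * (D (x e) / x e) + (u e : K)) =
          ((-u e₀ : ℤ) : K) * ∑ e, algebraMap F K (d e) * (D (x e) / x e) +
            ∑ e, algebraMap F K (d e) * (u e : K) := by
        rw [mul_sum, ← sum_add_distrib]
        exact sum_congr rfl fun e _ ↦ by ring
      rw [h1, hq, mul_zero, zero_add, map_sum]
      simp only [map_mul, map_intCast]
    have hv : v (algebraMap F K (∑ e, d e * (u e : F))) < 1 := by
      rw [hs]
      refine Valuation.map_sum_lt v one_ne_zero fun e _ ↦ ?_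
      rw [map_mul]
      by_cases hd : d e = 0
      · rw [hd, map_zero, map_zero, zero_mul]
        exact zero_lt_one
      · rw [hL.triv _ hd, one_mul]
        exact hr e
    by_contra h0
    rw [hL.triv _ h0] at hv
    exact lt_irrefl _ hv
  · intro w g hg hj
    have h := hled J (fun j ↦ c j * pr (m j) w) m (-lam * ∑ e, d e * w e) g (hW w) hg
      fun j h ↦ by simpa only [zero_add] using hj j h
    simpa only [zero_add] using h

end Pool.Agent.Helper61.FN
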